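import Mathlib
import Pool.Agent.U671.FT.Main
import Pool.Agent.U671.FT.TwinWidth

/-!
# The Beck–Fiala problem for set systems with few traces, in particular of bounded twin-width

A system `S_1, …, S_m` of subsets of `[n]` has few traces (with parameter `g`) if for every
nonempty set `J` of indices the points have at most `g |J|` different traces on `{S_j : j ∈ J}`.
There is an absolute constant `C` such that for such a system of maximum degree at most `t`, with
any number of points and sets and any set sizes,

(1) the discrepancy is at most `C √(g t)`;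

(2) for every `r` the discrepancy is at most
`C ((r + 1) √t + r (1 + log t)^2 √(log g) + (1 + log t)^(3/2) √(log^{(r+1)} (min m n)))`, where
`log^{(k)}` is the `k`-th iterate of `x ↦ log (1 + x)`.

Examples:

(3) A system with incidence matrix of twin-width at most `d` has few traces with
`g = d 2^d + 2`.

(4) If every `S_j` is a Boolean combination of at most `k` members of a family with parameter `g`
(of any degree), then `S` has few traces with parameter `g k`.

Proof of (1), (2). If `X` is a set of at least two points and `J` the set of the `j` with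
`|S_j ∩ X| > g t`, then `g |J| < |X|` by double counting, so two points of `X` have the same trace
on `J`. Removing them and repeating this we get a perfect matching of the points (up to one point)
such that every set separates at most `g t` pairs. Colour the points of each pair differently; the
signs of the pairs come from bounds for set systems of maximum degree at most `2 t` with sets of
size at most `g t`.

Proof of (3). By induction on `|J|`. Consider the first pair of partitions such that two elements
`j, j'` of `J` are in the same class. It has the same classes of points as the pair before, each of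
which has at most `2^d` traces on `J`. All points outside of at most `d` of these classes are in
both or none of `S_j` and `S_j'`, so that for them `j'` can be omitted.
-/

set_option autoImplicit false

namespace Pool.Agent.Results.MP_e8ee11_co.FewTraces

open Finset Pool.Agent.U671.FT

theorem result :
    ∃ C : ℝ, 0 < C ∧
      (∀ (n m t g : ℕ) (S : Fin m → Finset (Fin n)), 1 ≤ t →
        (∀ x : Fin n, (univ.filter (fun j : Fin m => x ∈ S j)).card ≤ t) → FewTraces S g →
        (∃ χ : Fin n → ℤ, (∀ x, χ x = 1 ∨ χ x = -1) ∧
          ∀ j, ((|∑ x ∈ S j, χ x| : ℤ) : ℝ) ≤ C * Real.sqrt (g * t)) ∧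
        ∀ r : ℕ, ∃ χ : Fin n → ℤ, (∀ x, χ x = 1 ∨ χ x = -1) ∧
          ∀ j, ((|∑ x ∈ S j, χ x| : ℤ) : ℝ) ≤ C * ((r + 1) * Real.sqrt t +
            r * (1 + Real.log t) ^ 2 * Real.sqrt (Real.log g) +
            (1 + Real.log t) ^ (3 / 2 : ℝ) *
              Real.sqrt ((fun x : ℝ => Real.log (1 + x))^[r + 1] (min m n : ℕ)))) ∧
      (∀ (n m d : ℕ) (S : Fin m → Finset (Fin n)), TwinWidthLE S d →
        FewTraces S (d * 2 ^ d + 2)) ∧
      ∀ (n m M g k : ℕ) (R : Fin M → Finset (Fin n)) (S : Fin m → Finset (Fin n)), 1 ≤ g → 1 ≤ k →
        FewTraces R g →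
        (∀ j, ∃ K : Finset (Fin M), K.card ≤ k ∧
          ∀ x y, (∀ i ∈ K, (x ∈ R i ↔ y ∈ R i)) → (x ∈ S j ↔ y ∈ S j)) →
        FewTraces S (g * k) := by
  obtain ⟨C1, h1, H1⟩ := main1
  obtain ⟨C2, h2, H2⟩ := main2
  refine ⟨C1 + C2, by positivity, fun n m t g S ht hdeg hS => ⟨?_, fun r => ?_⟩,
    fun n m d S h => few_of_twinWidth S d h, fun n m M g k R S hg hk hR hK => ?_⟩
  · obtain ⟨χ, h3, h4⟩ := H1 n m t g S ht hdeg hS
    refine ⟨χ, h3, fun j => (h4 j).trans (mul_le_mul_of_nonneg_right (by linarith) ?_)⟩
    positivity
  · obtain ⟨χ, h3, h4⟩ := H2 n m t g S ht hdeg hS r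
    refine ⟨χ, h3, fun j => (h4 j).trans (mul_le_mul_of_nonneg_right (by linarith) ?_)⟩
    have htR : (1 : ℝ) ≤ t := by exact_mod_cast ht
    have hlt : 0 ≤ Real.log (t : ℝ) := Real.log_nonneg htR
    have : 0 ≤ (1 + Real.log (t : ℝ)) ^ (3 / 2 : ℝ) := Real.rpow_nonneg (by linarith) _
    positivity
  · choose K hK1 hK2 using hK
    exact few_of_combination R S g k hg hk hR K hK1 hK2

end Pool.Agent.Results.MP_e8ee11_co.FewTraces
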