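import Pool.Agent.U531.FP.Round

set_option autoImplicit false

/-!
# The Beck–Fiala problem for fractional partitions, without dependence on the dimension

Every element `x` of the ground set carries a probability distribution `p x` on a set `K` of
colours. For a set system of maximum degree `t` there is a choice of a colour `f x` from the support
of `p x` for every `x` such that the number of the elements of the set `S` with the colour `a`
differs from its expectation `μ` by at most `C √t (1 + log D) (1 + μ / D)`, for all sets `S` and all
colours `a` at the same time. Here `D ≥ t` is arbitrary and `C` is an absolute constant: the bound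
does not depend on the number of the elements, sets, and colours, or on the sizes of the sets, and
ground set, system and palette may be infinite. For `k` equal classes the error is
`C √t (1 + log D) (1 + |S| / (k D))`.

Proof. For a finite system take `2 ^ n` colourings `F_j` such that the elements `x` have their
colours with frequencies `p x` up to `2 ^ (-n)`. The colourings are merged in pairs, all pairs at
the same time: the vectors of the Komlós problem to be signed are indexed by the pairs (pair of
colourings, element), the coordinates by the pairs (set, colour), and a sign decides which of the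
two colourings of the pair gives the colour of the element. So the errors of the `2 ^ m` pairs are
not added up; their sum is estimated at once by the dimension-free Komlós bound
`Pool.Agent.N421.KD.cut` with the parameter `D 4 ^ m`, and the error of this step is
`O (√t (m + 1 + log D)) (2 ^ (-m) + μ / (D 4 ^ m))`, summable over `m`. Infinite systems follow by
compactness.
-/

open Finset

namespace Pool.Agent.Results.MP_e8ee11_co.FractionalPartitions

open Pool.Agent.U531.FP

universe u w z

theorem cnt_eq {X : Type u} {K : Type z} [DecidableEq K] (f : X → K) (T : Finset X) (a : K) :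
    cnt f T a = ((T.filter (fun x => f x = a)).card : ℝ) := by
  unfold cnt e
  rw [← Finset.sum_boole]
  exact sum_congr rfl fun x _ => by congr

open Classical in
/-- **Main theorem.** There is an absolute constant `C` such that for all integers `t ≥ 1`, all real
`D ≥ t` and all families `S i`, `i ∈ ι`, of finite subsets of a set `X` such that every element is
in at most `t` of the sets (`X` and `ι` may be infinite):

(1) for all sets `K` of colours and all `p x a ≥ 0` (`x ∈ X`, `a ∈ K`) such that for every `x` only
finitely many `p x a` are nonzero and their sum is one, there is a colouring `f : X → K` with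
`p x (f x) > 0` for all `x` such that for every set `S i` and every colour `a` the number of the
elements of `S i` of colour `a` differs from `μ = ∑ x ∈ S i, p x a` by at most
`C √t (1 + log D) (1 + μ / D)`;

(2) for all `k ≥ 1` there is a colouring with `k` colours such that for every set `S i` and every
colour the number of the elements of `S i` with this colour differs from `|S i| / k` by at most
`C √t (1 + log D) (1 + |S i| / (k D))`. -/
theorem result : ∃ C : ℝ, 0 < C ∧ ∀ (t : ℕ) (D : ℝ), 1 ≤ t → (t : ℝ) ≤ D →
    ∀ (X : Type u) (ι : Type w) (S : ι → Finset X), (∀ x, {i | x ∈ S i}.encard ≤ t) →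
      (∀ (K : Type z) (p : X → K →₀ ℝ), (∀ x a, 0 ≤ p x a) →
        (∀ x, (p x).sum (fun _ r => r) = 1) →
        ∃ f : X → K, (∀ x, 0 < p x (f x)) ∧
          ∀ i a, |(#{x ∈ S i | f x = a} : ℝ) - ∑ x ∈ S i, p x a| ≤
            C * √t * (1 + Real.log D) * (1 + (∑ x ∈ S i, p x a) / D)) ∧
      ∀ k : ℕ, 1 ≤ k → ∃ f : X → Fin k,
        ∀ i a, |(#{x ∈ S i | f x = a} : ℝ) - (#(S i) : ℝ) / k| ≤
          C * √t * (1 + Real.log D) * (1 + (#(S i) : ℝ) / (k * D)) := by
  obtain ⟨C, hC, H⟩ := frac.{u, w, z}
  obtain ⟨C', hC', H'⟩ := frac.{u, w, 0}
  refine ⟨max C C', lt_max_of_lt_left hC, ?_⟩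
  intro t D ht htD X ι S hdeg
  have hD1 : (1 : ℝ) ≤ D := le_trans (by exact_mod_cast ht) htD
  have hlD : 0 ≤ Real.log D := Real.log_nonneg hD1
  constructor
  · intro K p hp h1
    obtain ⟨f, hf1, hf2⟩ := H t D ht htD X ι K S hdeg p hp h1
    refine ⟨f, hf1, fun i a => ?_⟩
    have h2 := hf2 i a
    rw [cnt_eq] at h2
    refine (le_of_eq ?_).trans (h2.trans ?_)
    · congr
    · have hμ : 0 ≤ ∑ x ∈ S i, p x a := sum_nonneg fun x _ => hp x _
      have : C ≤ max C C' := le_max_left _ _
      gcongr
  · intro k hk
    have hk0 : (0 : ℝ) < k := by exact_mod_cast hk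
    obtain ⟨f, -, hf2⟩ := H' t D ht htD X ι (Fin k) S hdeg
      (fun _ => Finsupp.equivFunOnFinite.symm (fun _ => (k : ℝ)⁻¹))
      (fun _ _ => by
        change 0 ≤ (k : ℝ)⁻¹
        positivity) (fun _ => by
        rw [Finsupp.sum_fintype _ _ (fun _ => rfl)]
        change ∑ _i : Fin k, (k : ℝ)⁻¹ = 1
        rw [sum_const, card_univ, Fintype.card_fin, nsmul_eq_mul, mul_inv_cancel₀ hk0.ne'])
    refine ⟨f, fun i a => ?_⟩
    have h2 := hf2 i a
    rw [cnt_eq] at h2
    have e1 : ∑ x ∈ S i, (Finsupp.equivFunOnFinite.symm (fun _ : Fin k => (k : ℝ)⁻¹)) a =
        (#(S i) : ℝ) / k := by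
      change ∑ _x ∈ S i, (k : ℝ)⁻¹ = _
      rw [sum_const, nsmul_eq_mul]
      rfl
    rw [e1] at h2
    refine (le_of_eq ?_).trans (h2.trans ?_)
    · congr
    · have : C' ≤ max C C' := le_max_right _ _
      rw [div_div]
      gcongr

end Pool.Agent.Results.MP_e8ee11_co.FractionalPartitions
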