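import Mathlib
import Pool.Agent.U939.KL.Exp

/-!
# The Beck-Fiala problem with an own budget for every set

Let `a` be a real `m × n` matrix with entries `|a i j| ≤ 1` (for example the incidence matrix of
sets `S_1, …, S_m` in `[n]`) and let `t_i ≥ 1` be budgets, one for every row, with
`∑ i, |a i j| / t_i ≤ 1` for every column `j`. Let
`bound t X = min (√t X^{1/4}) (√t + √X (1 + log t)^{3/2})`. With an absolute constant `C`:

(1) there are signs `x_j` with
`|∑ j, a i j (x_j - x⁰_j)| ≤ C min (t_i) (bound t_i (1 + log (1 + min m n)))` for all rows at once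
(`x⁰ ∈ [-1,1]^n` is arbitrary). So every row with budget `t_i ≥ L (1 + log L)^3`,
`L = 1 + log (1 + min m n)`, gets the Beck-Fiala bound `O(√t_i)`, whatever the other budgets are.

(2) For sets of arbitrary degrees: every set `S_i` has discrepancy at most
`C min (T_i) (bound T_i (1 + log (1 + min m n)))` where `T_i` is the largest degree of an element
of `S_i` itself.

(3) Random form, independent of the dimension: for every `X ≥ 1` there is a probability
distribution on signings such that every row is at most `q C bound t_i X` with probability at least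
`1 - exp (- q X)`, for all integers `q ≥ 1`, and surely at most `40 t_i` and
`C bound t_i X (1 + log (min m n) / X)`.

Proof: the potential function method of the library (`H167KL`, `N243`), rebuilt with potentials,
cut-offs and levels depending on the row (`U939/KL`): a row is kept balanced as long as its alive
mass exceeds `10 t_i`, and each element distributes its unit of energy among its rows.
-/

set_option autoImplicit false

namespace Pool.Agent.Results.MP_e8ee11_co.IndividualBudgets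

open Finset Real

/-- The bound for a row with budget `t`. -/
noncomputable def bound (t X : ℝ) : ℝ :=
  min (Real.sqrt t * X ^ (1 / 4 : ℝ))
    (Real.sqrt t + Real.sqrt X * (1 + Real.log t) ^ (3 / 2 : ℝ))

/-- The discrepancy of the `i`-th row of `a` between `x₀` and `x`. -/
def rowDisc {m n : ℕ} (a : Fin m → Fin n → ℝ) (x₀ x : Fin n → ℝ) (i : Fin m) : ℝ :=
  |∑ j, a i j * (x j - x₀ j)|

/-- Every column `j` can pay `|a i j| / t i` to every row `i` from its unit budget. -/
def Budgets {m n : ℕ} (a : Fin m → Fin n → ℝ) (t : Fin m → ℝ) : Prop :=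
  (∀ i j, |a i j| ≤ 1) ∧ (∀ i, 1 ≤ t i) ∧ ∀ j, ∑ i, |a i j| / t i ≤ 1

theorem bnd_le {t X : ℝ} (ht : 1 ≤ t) (hX : 1 ≤ X) :
    Pool.Agent.U939.KL.bnd t X ≤ 832000 * bound t X := by
  have hlog : 0 ≤ Real.log t := Real.log_nonneg ht
  have hst : 0 ≤ Real.sqrt t := Real.sqrt_nonneg _
  have hsX : 0 ≤ Real.sqrt X := Real.sqrt_nonneg _
  have hX0 : 0 ≤ X ^ (1 / 4 : ℝ) := Real.rpow_nonneg (by linarith) _
  have hp : 0 ≤ (1 + Real.log t) ^ (3 / 2 : ℝ) := by positivity
  unfold Pool.Agent.U939.KL.bnd bound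
  rw [mul_min_of_nonneg _ _ (by norm_num : (0 : ℝ) ≤ 832000)]
  apply le_min
  · refine (min_le_right _ _).trans ?_
    have : 0 ≤ Real.sqrt t * X ^ (1 / 4 : ℝ) := mul_nonneg hst hX0
    linarith
  · refine (min_le_left _ _).trans ?_
    have : 0 ≤ Real.sqrt X * (1 + Real.log t) ^ (3 / 2 : ℝ) := mul_nonneg hsX hp
    linarith

theorem bound_nonneg {t X : ℝ} (ht : 1 ≤ t) (hX : 1 ≤ X) : 0 ≤ bound t X := by
  have hlog : 0 ≤ Real.log t := Real.log_nonneg ht
  unfold bound
  apply le_min <;> positivity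

/-- The random form. -/
theorem random {m n : ℕ} (a : Fin m → Fin n → ℝ) (t : Fin m → ℝ) (h : Budgets a t)
    (x₀ : Fin n → ℝ) (hx₀ : ∀ j, |x₀ j| ≤ 1) (X : ℝ) (hX : 1 ≤ X) :
    ∃ (K : ℕ) (w : Fin K → ℝ) (x : Fin K → Fin n → ℝ),
      (∀ k, 0 ≤ w k) ∧ ∑ k, w k = 1 ∧ (∀ k j, x k j = 1 ∨ x k j = -1) ∧
      (∀ (i : Fin m) (q : ℕ), 1 ≤ q →
        ∑ k, (if q * (832000 * bound (t i) X) < rowDisc a x₀ (x k) i then w k else 0) ≤
          Real.exp (-(q * X))) ∧
      ∀ k i, rowDisc a x₀ (x k) i ≤ 40 * t i ∧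
        rowDisc a x₀ (x k) i ≤ 832000 * bound (t i) X * (1 + Real.log (min m n : ℕ) / X) := by
  classical
  obtain ⟨ha, ht, hcol⟩ := h
  obtain ⟨K, w, x, h1, h2, h3, h4, h5, h6⟩ := Pool.Agent.U939.KL.main a (fun i j => |a i j|) t ht ha
    (fun i j => by
      have h1 := ha i j
      have h2 := abs_nonneg (a i j)
      rw [← sq_abs]
      nlinarith) (fun i j hij => by rw [hij, abs_zero]) hcol x₀ hx₀ X hX
  refine ⟨K, w, x, h1, h2, h3, fun i q hq => ?_, fun k i => ⟨?_, ?_⟩⟩
  · refine le_trans (Finset.sum_le_sum fun k _ => ?_) (h4 i q hq)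
    have h7 : (q : ℝ) * Pool.Agent.U939.KL.bnd (t i) X ≤ q * (832000 * bound (t i) X) :=
      mul_le_mul_of_nonneg_left (bnd_le (ht i) hX) (Nat.cast_nonneg q)
    have h8 : rowDisc a x₀ (x k) i = Pool.Agent.U939.KL.rowSum a x₀ (x k) i := rfl
    rw [h8]
    by_cases h9 : (q : ℝ) * (832000 * bound (t i) X) < Pool.Agent.U939.KL.rowSum a x₀ (x k) i
    · rw [if_pos h9, if_pos (h7.trans_lt h9)]
    · rw [if_neg h9]
      split_ifs
      · exact h1 k
      · exact le_rfl
  · have h7 := (h6 k i (10 * t i) (fun F hF => hF)).2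
    have h8 : rowDisc a x₀ (x k) i = Pool.Agent.U939.KL.rowSum a x₀ (x k) i := rfl
    rw [h8]
    linarith
  · refine (h5 k i).trans ?_
    apply mul_le_mul_of_nonneg_right (bnd_le (ht i) hX)
    have h7 : 0 ≤ Real.log ((min m n : ℕ) : ℝ) := Real.log_natCast_nonneg _
    positivity

/-- The deterministic form. -/
theorem det {m n : ℕ} (a : Fin m → Fin n → ℝ) (t : Fin m → ℝ) (h : Budgets a t)
    (x₀ : Fin n → ℝ) (hx₀ : ∀ j, |x₀ j| ≤ 1) :
    ∃ x : Fin n → ℝ, (∀ j, x j = 1 ∨ x j = -1) ∧ ∀ i, rowDisc a x₀ x i ≤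
      1664000 * min (t i) (bound (t i) (1 + Real.log (1 + (min m n : ℕ)))) := by
  classical
  set X : ℝ := 1 + Real.log (1 + (min m n : ℕ)) with hXdef
  have hN : (0 : ℝ) ≤ ((min m n : ℕ) : ℝ) := Nat.cast_nonneg _
  have hX : 1 ≤ X := by
    have := Real.log_nonneg (by linarith : (1 : ℝ) ≤ 1 + ((min m n : ℕ) : ℝ))
    linarith
  obtain ⟨K, w, x, h1, h2, h3, -, h5⟩ := random a t h x₀ hx₀ X hX
  have hK : 0 < K := by
    rcases Nat.eq_zero_or_pos K with h0 | h0
    · subst h0
      simp at h2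
    · exact h0
  refine ⟨x ⟨0, hK⟩, h3 _, fun i => ?_⟩
  obtain ⟨h6, h7⟩ := h5 ⟨0, hK⟩ i
  have ht := h.2.1 i
  have hb := bound_nonneg ht hX
  rw [mul_min_of_nonneg _ _ (by norm_num : (0 : ℝ) ≤ 1664000)]
  apply le_min
  · linarith
  · have h8 : Real.log ((min m n : ℕ) : ℝ) / X ≤ 1 := by
      rw [div_le_one (by linarith)]
      rcases Nat.eq_zero_or_pos (min m n) with h0 | h0
      · rw [h0, Nat.cast_zero, Real.log_zero]; linarith
      · have h9 : (0 : ℝ) < ((min m n : ℕ) : ℝ) := by exact_mod_cast h0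
        have := Real.log_le_log h9 (by linarith : ((min m n : ℕ) : ℝ) ≤ 1 + ((min m n : ℕ) : ℝ))
        linarith
    refine h7.trans ?_
    nlinarith

/-- Sets of arbitrary degrees: `T i` is at least the degree of all elements of `S i`. -/
theorem local_sets {m n : ℕ} (S : Fin m → Finset (Fin n)) (T : Fin m → ℕ) (hT1 : ∀ i, 1 ≤ T i)
    (hT : ∀ i, ∀ j ∈ S i, (univ.filter (fun k => j ∈ S k)).card ≤ T i) :
    ∃ χ : Fin n → ℤ, (∀ j, χ j = 1 ∨ χ j = -1) ∧ ∀ i, |((∑ j ∈ S i, χ j : ℤ) : ℝ)| ≤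
      1664000 * min (T i : ℝ) (bound (T i) (1 + Real.log (1 + (min m n : ℕ)))) := by
  classical
  obtain ⟨x, h1, h2⟩ := det (fun i j => if j ∈ S i then (1 : ℝ) else 0) (fun i => (T i : ℝ))
    ⟨fun i j => by beta_reduce; split_ifs <;> simp,
      fun i => by beta_reduce; exact_mod_cast hT1 i, fun j => by
      beta_reduce
      have e : ∀ i, |if j ∈ S i then (1 : ℝ) else 0| / (T i : ℝ)
          = if j ∈ S i then 1 / (T i : ℝ) else 0 := by
        intro i
        split_ifs <;> simp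
      simp only [e]
      rw [← Finset.sum_filter]
      set d := (univ.filter (fun k => j ∈ S k)).card with hd
      rcases Nat.eq_zero_or_pos d with h0 | h0
      · rw [Finset.card_eq_zero.mp h0]
        simp
      · have hd0 : (0 : ℝ) < d := by exact_mod_cast h0
        calc ∑ i ∈ univ.filter (fun k => j ∈ S k), 1 / (T i : ℝ)
            ≤ ∑ i ∈ univ.filter (fun k => j ∈ S k), 1 / (d : ℝ) := by
              refine Finset.sum_le_sum fun i hi => ?_
              have h3 := hT i j (Finset.mem_filter.mp hi).2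
              apply one_div_le_one_div_of_le hd0
              exact_mod_cast h3
          _ = 1 := by
              rw [Finset.sum_const, nsmul_eq_mul, ← hd]
              field_simp⟩ (fun _ => 0) (fun _ => by simp)
  refine ⟨fun j => if x j = 1 then 1 else -1, fun j => ?_, fun i => ?_⟩
  · by_cases h : x j = 1
    · left; simp [h]
    · right; simp [h]
  · have h3 := h2 i
    unfold rowDisc at h3
    have e : ∑ j, (if j ∈ S i then (1 : ℝ) else 0) * (x j - 0)
        = ((∑ j ∈ S i, (if x j = 1 then 1 else -1) : ℤ) : ℝ) := by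
      push_cast
      rw [← Finset.sum_filter_add_sum_filter_not univ (fun j => j ∈ S i)]
      have e1 : ∑ j ∈ univ.filter (fun j => ¬ j ∈ S i),
          (if j ∈ S i then (1 : ℝ) else 0) * (x j - 0) = 0 := by
        refine Finset.sum_eq_zero fun j hj => ?_
        rw [if_neg (Finset.mem_filter.mp hj).2, zero_mul]
      rw [e1, add_zero]
      have e2 : univ.filter (fun j => j ∈ S i) = S i := by ext j; simp
      rw [e2]
      refine Finset.sum_congr rfl fun j hj => ?_
      rw [if_pos hj, one_mul, sub_zero]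
      rcases h1 j with h | h
      · simp [h]
      · rw [h, if_neg (by norm_num)]
    rw [e] at h3
    exact h3

theorem result : ∃ C : ℝ, 0 < C ∧
    (∀ (m n : ℕ) (a : Fin m → Fin n → ℝ) (t : Fin m → ℝ), Budgets a t →
      ∀ x₀ : Fin n → ℝ, (∀ j, |x₀ j| ≤ 1) →
        ∃ x : Fin n → ℝ, (∀ j, x j = 1 ∨ x j = -1) ∧ ∀ i, rowDisc a x₀ x i ≤
          C * min (t i) (bound (t i) (1 + Real.log (1 + (min m n : ℕ))))) ∧
    (∀ (m n : ℕ) (S : Fin m → Finset (Fin n)) (T : Fin m → ℕ), (∀ i, 1 ≤ T i) →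
      (∀ i, ∀ j ∈ S i, (univ.filter (fun k => j ∈ S k)).card ≤ T i) →
        ∃ χ : Fin n → ℤ, (∀ j, χ j = 1 ∨ χ j = -1) ∧ ∀ i, |((∑ j ∈ S i, χ j : ℤ) : ℝ)| ≤
          C * min (T i : ℝ) (bound (T i) (1 + Real.log (1 + (min m n : ℕ))))) ∧
    (∀ (m n : ℕ) (a : Fin m → Fin n → ℝ) (t : Fin m → ℝ), Budgets a t →
      ∀ x₀ : Fin n → ℝ, (∀ j, |x₀ j| ≤ 1) → ∀ X : ℝ, 1 ≤ X →
        ∃ (K : ℕ) (w : Fin K → ℝ) (x : Fin K → Fin n → ℝ),
          (∀ k, 0 ≤ w k) ∧ ∑ k, w k = 1 ∧ (∀ k j, x k j = 1 ∨ x k j = -1) ∧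
          (∀ (i : Fin m) (q : ℕ), 1 ≤ q →
            ∑ k, (if q * (C * bound (t i) X) < rowDisc a x₀ (x k) i then w k else 0) ≤
              Real.exp (-(q * X))) ∧
          ∀ k i, rowDisc a x₀ (x k) i ≤ 40 * t i ∧
            rowDisc a x₀ (x k) i ≤ C * bound (t i) X * (1 + Real.log (min m n : ℕ) / X)) := by
  refine ⟨1664000, by norm_num, fun m n a t h x₀ hx₀ => det a t h x₀ hx₀,
    fun m n S T hT1 hT => local_sets S T hT1 hT, fun m n a t h x₀ hx₀ X hX => ?_⟩
  obtain ⟨K, w, x, h1, h2, h3, h4, h5⟩ := random a t h x₀ hx₀ X hX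
  refine ⟨K, w, x, h1, h2, h3, fun i q hq => ?_, fun k i => ⟨(h5 k i).1, ?_⟩⟩
  · refine le_trans (Finset.sum_le_sum fun k _ => ?_) (h4 i q hq)
    have hb := bound_nonneg (h.2.1 i) hX
    have h7 : (q : ℝ) * (832000 * bound (t i) X) ≤ q * (1664000 * bound (t i) X) :=
      mul_le_mul_of_nonneg_left (by linarith) (Nat.cast_nonneg q)
    by_cases h9 : (q : ℝ) * (1664000 * bound (t i) X) < rowDisc a x₀ (x k) i
    · rw [if_pos h9, if_pos (h7.trans_lt h9)]
    · rw [if_neg h9]
      split_ifs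
      · exact h1 k
      · exact le_rfl
  · refine (h5 k i).2.trans ?_
    have hb := bound_nonneg (h.2.1 i) hX
    have h7 : 0 ≤ Real.log ((min m n : ℕ) : ℝ) := Real.log_natCast_nonneg _
    have h8 : 0 ≤ 1 + Real.log ((min m n : ℕ) : ℝ) / X := by positivity
    nlinarith [mul_nonneg hb h8]

end Pool.Agent.Results.MP_e8ee11_co.IndividualBudgets
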