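import Pool.Agent.Results.MP_e8ee11_co.BeckFialaIterFree
import Pool.Agent.U515.KX.BF

/-!
# The Beck–Fiala problem with matroid constraints

A family `𝔉` of subsets of `[n]` is `s`-exchangeable if for all `A, B ∈ 𝔉` the set `A △ B` can be
partitioned into blocks of at most `s` elements such that switching any set of blocks leads from
`A` to a member of `𝔉`; the bases of a strongly base orderable matroid are such a family for
`s = 2`. Let `S_1, …, S_m` be subsets of `[n]` of maximum degree at most `t`.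

(1) If all set systems of maximum degree at most `s t` have discrepancy at most `R`, then every point
`x₀` of the convex hull of the indicators of the members of an `s`-exchangeable family `𝔉` can be
rounded to a member `A` of `𝔉` with `| |A ∩ S_j| - x₀ (S_j) | ≤ 2 s R` for all `j`, and any `2^p`
members of `𝔉` can be replaced by `2^p` members of `𝔉` which cover every element as often as before
such that each of them meets each `S_j` in the mean number of elements up to `2 s R`.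

(2) Unconditionally this holds with `C_s (√t + (1 + log t)^{3/2} √(log (1 + min m n)))` instead of
`2 s R`. So it holds with the Beck–Fiala bound `C_s √t` if `log (1 + min m n) ≤ t / (1 + log t)^3`.

(3) The Beck–Fiala conjecture is equivalent to its version for the bases of strongly base orderable
matroids.
-/

set_option autoImplicit false

namespace Pool.Agent.Results.MP_e8ee11_co.StronglyOrderableBases

open Pool.Agent.U515.KX

/-- `x₀` can be rounded to a member `A` of `F` such that `|A ∩ S_j|` differs from `x₀ (S_j)` by at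
most `R` for all `j`. -/
def HasRounding {m n : ℕ} (S : Fin m → Finset (Fin n)) (F : Set (Finset (Fin n)))
    (x₀ : Fin n → ℝ) (R : ℝ) : Prop :=
  ∃ A ∈ F, ∀ j, |((A ∩ S j).card : ℝ) - ∑ i ∈ S j, x₀ i| ≤ R

/-- Any `2^p` members of `F` can be replaced by `2^p` members which cover every element as often
as before, and which all meet every `S_j` in the mean number of elements up to `R`. -/
def HasBalancing {m n : ℕ} (S : Fin m → Finset (Fin n)) (F : Set (Finset (Fin n))) (R : ℝ) :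
    Prop :=
  ∀ (p : ℕ) (A : Fin (2 ^ p) → Finset (Fin n)), (∀ i, A i ∈ F) →
    ∃ C : Fin (2 ^ p) → Finset (Fin n), (∀ i, C i ∈ F) ∧
      (∀ x, (Finset.univ.filter fun i => x ∈ C i).card =
        (Finset.univ.filter fun i => x ∈ A i).card) ∧
      ∀ i j, |((C i ∩ S j).card : ℝ) - (∑ i, ((A i ∩ S j).card : ℝ)) / 2 ^ p| ≤ R

theorem general {n m s : ℕ} {F : Set (Finset (Fin n))} (hF : Exchangeable s F)
    (S : Fin m → Finset (Fin n)) (b : ℕ → ℝ)
    (hb : ∀ k, BlockBound s (fun x k => if x ∈ S k then (1:ℝ) else 0) (2 ^ k) (b k)) (R : ℝ)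
    (hR : 0 < m → ∀ p, ∑ l ∈ Finset.range p, b l / 2 ^ (l + 1) ≤ R) :
    (∀ x₀ ∈ convexHull ℝ (ind '' F), HasRounding S F x₀ R) ∧ HasBalancing S F R := by
  classical
  have hcard : ∀ (B : Finset (Fin n)) (k : Fin m),
      ((B ∩ S k).card : ℝ) = ∑ j ∈ B, if j ∈ S k then (1:ℝ) else 0 := by
    intro B k
    rw [Finset.sum_boole, Finset.filter_mem_eq_inter]
  constructor
  · intro x₀ hx
    obtain ⟨A, hA, h⟩ := round_hull' hF _ b hb R hR x₀ hx
    refine ⟨A, hA, fun k => ?_⟩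
    have h1 := h k
    rw [← hcard] at h1
    have h2 : ∑ j, x₀ j * (if j ∈ S k then (1:ℝ) else 0) = ∑ i ∈ S k, x₀ i := by
      simp [Finset.sum_ite_mem]
    rwa [h2] at h1
  · intro p A hA
    have hpos : 0 < 2 ^ p := by positivity
    obtain ⟨C, hC, hC1, hC2⟩ := balance' hF _ b hb p
      (fun i => if h : i < 2 ^ p then A ⟨i, h⟩ else A ⟨0, hpos⟩) (fun i => by
        show (if h : i < 2 ^ p then A ⟨i, h⟩ else A ⟨0, hpos⟩) ∈ F
        split_ifs
        · exact hA _
        · exact hA _)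
    refine ⟨fun i => C i, fun i => hC _, fun x => ?_, fun i k => ?_⟩
    · have h := hC1 x
      rw [Finset.sum_range, Finset.sum_range] at h
      simp only [ind, Fin.is_lt, dif_pos, Fin.eta] at h
      rw [Finset.sum_boole, Finset.sum_boole] at h
      exact_mod_cast h
    · have h := (hC2 i i.isLt k).trans (hR (Fin.pos k) p)
      have e1 : ∀ B : Finset (Fin n),
          ∑ j, ind B j * (if j ∈ S k then (1:ℝ) else 0) = ((B ∩ S k).card : ℝ) := by
        intro B
        rw [hcard]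
        simp only [ind, ite_mul, one_mul, zero_mul, Finset.sum_ite_mem, Finset.univ_inter]
      rw [Finset.sum_range] at h
      simp only [e1, Fin.is_lt, dif_pos, Fin.eta] at h
      exact h

theorem geom (K : ℝ) (m : ℕ) :
    ∑ l ∈ Finset.range m, K / 2 ^ (l + 1) = K * (1 - 1 / 2 ^ m) := by
  induction m with
  | zero => simp
  | succ m ih =>
    rw [Finset.sum_range_succ, ih, pow_succ]
    field_simp
    ring

theorem geom2 (m : ℕ) :
    ∑ l ∈ Finset.range m, ((l:ℝ) + 1) / 2 ^ (l + 1) = 2 - ((m:ℝ) + 2) / 2 ^ m := by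
  induction m with
  | zero => simp
  | succ m ih =>
    rw [Finset.sum_range_succ, ih, pow_succ]
    push_cast
    field_simp
    ring

theorem conditional {n m s t : ℕ} {F : Set (Finset (Fin n))} (hF : Exchangeable s F)
    (S : Fin m → Finset (Fin n)) (hS : DegreeLE S t) (R : ℝ)
    (hR : ∀ (m' n' : ℕ) (T : Fin m' → Finset (Fin n')), DegreeLE T (s * t) → DiscLE T R) :
    (∀ x₀ ∈ convexHull ℝ (ind '' F), HasRounding S F x₀ (2 * s * R)) ∧
      HasBalancing S F (2 * s * R) := by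
  refine general hF S (fun _ => 2 * s * R)
    (fun k => bf_block S hS R (fun T hT => hR _ _ T hT)) _ (fun hm p => ?_)
  have h0 : 0 ≤ R := by
    obtain ⟨χ, _, h⟩ := hR 1 0 (fun _ => ∅) (fun i => i.elim0)
    have := h 0
    simpa using this
  rw [geom]
  have h1 : (0:ℝ) ≤ 1 / 2 ^ p := by positivity
  have h2 : 0 ≤ 2 * s * R := by positivity
  nlinarith

/-- the unconditional bound -/
noncomputable def G (t M : ℕ) : ℝ :=
  Real.sqrt t + (1 + Real.log t) ^ (3 / 2 : ℝ) * Real.sqrt (Real.log (1 + (M : ℕ)))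

theorem G_nonneg (t M : ℕ) (ht : 1 ≤ t) : 0 ≤ G t M := by
  have h1 : (1:ℝ) ≤ t := by exact_mod_cast ht
  have h2 : 0 ≤ Real.log (t:ℝ) := Real.log_nonneg h1
  unfold G
  positivity

theorem uncond : ∃ C : ℝ, 0 ≤ C ∧ ∀ (m n t : ℕ) (S : Fin m → Finset (Fin n)), 1 ≤ t →
    DegreeLE S t → DiscLE S (C * G t (min m n)) := by
  obtain ⟨C, hC⟩ := Pool.Agent.Results.MP_e8ee11_co.BeckFialaIterFree.result
  refine ⟨|C|, abs_nonneg C, fun m n t S ht hS => ?_⟩
  obtain ⟨χ, hχ, hχ2⟩ := (hC m n t (n + 1) ht (by omega) S hS (fun j => by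
    refine (Finset.card_le_univ _).trans ?_
    rw [Fintype.card_fin]
    omega) 0 (fun _ => 0) (by simp)).1
  refine ⟨χ, hχ, fun j => ?_⟩
  have h1 := hχ2 j
  simp only [Nat.cast_zero, mul_zero, zero_mul, zero_add, Function.iterate_one, sub_zero] at h1
  exact h1.trans (mul_le_mul_of_nonneg_right (le_abs_self C) (G_nonneg t _ ht))

/-- growth of the bound -/
theorem G_growth (σ t m n l : ℕ) (hσ : 1 ≤ σ) (ht : 1 ≤ t) (hM : 1 ≤ min m n) :
    G (σ * t) (min (m * (2 * σ)) (2 ^ l * n)) ≤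
      ((σ:ℝ) ^ 2 * (4 * σ + 2)) * (((l:ℝ) + 1) * G t (min m n)) := by
  have hσ1 : (1:ℝ) ≤ σ := by exact_mod_cast hσ
  have ht1 : (1:ℝ) ≤ t := by exact_mod_cast ht
  have hM1 : (1:ℝ) ≤ ((min m n : ℕ) : ℝ) := by exact_mod_cast hM
  have hlt : 0 ≤ Real.log (t:ℝ) := Real.log_nonneg ht1
  have hl0 : (0:ℝ) ≤ l := by positivity
  -- first term
  have h1 : Real.sqrt ((σ * t : ℕ) : ℝ) ≤ σ * Real.sqrt t := by
    push_cast
    rw [Real.sqrt_mul (by linarith)]
    apply mul_le_mul_of_nonneg_right _ (Real.sqrt_nonneg _)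
    rw [Real.sqrt_le_left (by linarith)]
    nlinarith
  -- logarithm of the degree
  have h2 : 1 + Real.log ((σ * t : ℕ) : ℝ) ≤ σ * (1 + Real.log t) := by
    push_cast
    rw [Real.log_mul (by positivity) (by positivity)]
    have := Real.log_le_sub_one_of_pos (show (0:ℝ) < σ by linarith)
    nlinarith
  have h20 : 0 ≤ Real.log ((σ * t : ℕ) : ℝ) := by
    apply Real.log_nonneg
    push_cast
    nlinarith
  have h3 : (1 + Real.log ((σ * t : ℕ) : ℝ)) ^ (3 / 2 : ℝ) ≤
      (σ:ℝ) ^ 2 * (1 + Real.log t) ^ (3 / 2 : ℝ) := by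
    calc (1 + Real.log ((σ * t : ℕ) : ℝ)) ^ (3 / 2 : ℝ) ≤ (σ * (1 + Real.log t)) ^ (3 / 2 : ℝ) :=
          Real.rpow_le_rpow (by linarith) h2 (by norm_num)
      _ = (σ:ℝ) ^ (3 / 2 : ℝ) * (1 + Real.log t) ^ (3 / 2 : ℝ) :=
          Real.mul_rpow (by linarith) (by linarith)
      _ ≤ (σ:ℝ) ^ 2 * (1 + Real.log t) ^ (3 / 2 : ℝ) := by
          apply mul_le_mul_of_nonneg_right _ (by positivity)
          calc (σ:ℝ) ^ (3 / 2 : ℝ) ≤ (σ:ℝ) ^ (2 : ℝ) :=
                Real.rpow_le_rpow_of_exponent_le hσ1 (by norm_num)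
            _ = (σ:ℝ) ^ 2 := by norm_cast
  -- logarithm of the number of vectors
  have h4 : ((min (m * (2 * σ)) (2 ^ l * n) : ℕ) : ℝ) ≤
      2 * σ * 2 ^ l * ((min m n : ℕ) : ℝ) := by
    have h5 : min (m * (2 * σ)) (2 ^ l * n) ≤ 2 * σ * 2 ^ l * min m n := by
      have hp : 1 ≤ 2 ^ l := Nat.one_le_two_pow
      rcases le_total m n with h | h
      · rw [min_eq_left h]
        refine (min_le_left _ _).trans ?_
        calc m * (2 * σ) = 2 * σ * 1 * m := by ring
          _ ≤ 2 * σ * 2 ^ l * m := by gcongr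
      · rw [min_eq_right h]
        refine (min_le_right _ _).trans ?_
        calc 2 ^ l * n = 1 * 2 ^ l * n := by ring
          _ ≤ 2 * σ * 2 ^ l * n := by
            gcongr
            omega
    exact_mod_cast h5
  have hlog1M : 1 / 2 ≤ Real.log (1 + ((min m n : ℕ) : ℝ)) := by
    have h6 : Real.log 2 ≤ Real.log (1 + ((min m n : ℕ) : ℝ)) :=
      Real.log_le_log (by norm_num) (by linarith)
    have := Real.log_two_gt_d9
    linarith
  have h7 : Real.log (1 + ((min (m * (2 * σ)) (2 ^ l * n) : ℕ) : ℝ)) ≤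
      ((4 * σ + 2) * ((l:ℝ) + 1)) * Real.log (1 + ((min m n : ℕ) : ℝ)) := by
    have h8 : Real.log (1 + ((min (m * (2 * σ)) (2 ^ l * n) : ℕ) : ℝ)) ≤
        Real.log ((2 * σ * 2 ^ l) * (1 + ((min m n : ℕ) : ℝ))) := by
      apply Real.log_le_log (by positivity)
      have h9 : (1:ℝ) ≤ 2 * σ * 2 ^ l := by
        have : (1:ℝ) ≤ 2 ^ l := one_le_pow₀ (by norm_num)
        nlinarith
      nlinarith
    rw [Real.log_mul (by positivity) (by positivity), Real.log_mul (by positivity) (by positivity),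
      Real.log_pow] at h8
    have h10 : Real.log (2 * σ) ≤ 2 * σ := by
      have := Real.log_le_sub_one_of_pos (show (0:ℝ) < 2 * σ by linarith)
      linarith
    have h11 : (l:ℝ) * Real.log 2 ≤ l := by
      have : Real.log 2 ≤ 1 := by
        have := Real.log_two_lt_d9
        linarith
      nlinarith
    have h12 : 2 * (σ:ℝ) + l ≤ (4 * σ + 2 * l) * Real.log (1 + ((min m n : ℕ) : ℝ)) := by
      nlinarith
    have h13 : (4 * (σ:ℝ) + 2 * l) * Real.log (1 + ((min m n : ℕ) : ℝ)) +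
        Real.log (1 + ((min m n : ℕ) : ℝ)) ≤
        ((4 * σ + 2) * ((l:ℝ) + 1)) * Real.log (1 + ((min m n : ℕ) : ℝ)) := by
      have h14 : 4 * (σ:ℝ) + 2 * l + 1 ≤ (4 * σ + 2) * ((l:ℝ) + 1) := by nlinarith
      have h15 : 0 ≤ Real.log (1 + ((min m n : ℕ) : ℝ)) := by linarith
      calc (4 * (σ:ℝ) + 2 * l) * Real.log (1 + ((min m n : ℕ) : ℝ)) +
            Real.log (1 + ((min m n : ℕ) : ℝ)) =
            (4 * (σ:ℝ) + 2 * l + 1) * Real.log (1 + ((min m n : ℕ) : ℝ)) := by ring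
        _ ≤ _ := mul_le_mul_of_nonneg_right h14 h15
    linarith
  have h16 : Real.sqrt (Real.log (1 + ((min (m * (2 * σ)) (2 ^ l * n) : ℕ) : ℝ))) ≤
      ((4 * σ + 2) * ((l:ℝ) + 1)) * Real.sqrt (Real.log (1 + ((min m n : ℕ) : ℝ))) := by
    have h17 : (1:ℝ) ≤ (4 * σ + 2) * ((l:ℝ) + 1) := by nlinarith
    calc Real.sqrt (Real.log (1 + ((min (m * (2 * σ)) (2 ^ l * n) : ℕ) : ℝ))) ≤
          Real.sqrt (((4 * σ + 2) * ((l:ℝ) + 1)) * Real.log (1 + ((min m n : ℕ) : ℝ))) :=
          Real.sqrt_le_sqrt h7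
      _ = Real.sqrt ((4 * σ + 2) * ((l:ℝ) + 1)) *
            Real.sqrt (Real.log (1 + ((min m n : ℕ) : ℝ))) := Real.sqrt_mul (by linarith) _
      _ ≤ _ := by
          apply mul_le_mul_of_nonneg_right _ (Real.sqrt_nonneg _)
          rw [Real.sqrt_le_left (by linarith)]
          nlinarith
  have hT : 0 ≤ (1 + Real.log (t:ℝ)) ^ (3 / 2 : ℝ) := by positivity
  unfold G
  have h18 : (1 + Real.log ((σ * t : ℕ) : ℝ)) ^ (3 / 2 : ℝ) *
      Real.sqrt (Real.log (1 + ((min (m * (2 * σ)) (2 ^ l * n) : ℕ) : ℝ))) ≤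
      ((σ:ℝ) ^ 2 * (1 + Real.log t) ^ (3 / 2 : ℝ)) * (((4 * σ + 2) * ((l:ℝ) + 1)) *
        Real.sqrt (Real.log (1 + ((min m n : ℕ) : ℝ)))) :=
    mul_le_mul h3 h16 (Real.sqrt_nonneg _) (by positivity)
  have h19 : (σ:ℝ) * Real.sqrt t ≤
      ((σ:ℝ) ^ 2 * (4 * σ + 2)) * (((l:ℝ) + 1) * Real.sqrt t) := by
    have h21 : (σ:ℝ) ≤ (σ:ℝ) ^ 2 * (4 * σ + 2) * ((l:ℝ) + 1) := by
      have h22 : (σ:ℝ) ≤ (σ:ℝ) ^ 2 := by nlinarith
      have h23 : (1:ℝ) ≤ (4 * σ + 2) * ((l:ℝ) + 1) := by nlinarith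
      have h24 : (σ:ℝ) ^ 2 ≤ (σ:ℝ) ^ 2 * ((4 * σ + 2) * ((l:ℝ) + 1)) :=
        le_mul_of_one_le_right (by positivity) h23
      calc (σ:ℝ) ≤ (σ:ℝ) ^ 2 := h22
        _ ≤ (σ:ℝ) ^ 2 * ((4 * σ + 2) * ((l:ℝ) + 1)) := h24
        _ = _ := by ring
    calc (σ:ℝ) * Real.sqrt t ≤ ((σ:ℝ) ^ 2 * (4 * σ + 2) * ((l:ℝ) + 1)) * Real.sqrt t :=
          mul_le_mul_of_nonneg_right h21 (Real.sqrt_nonneg _)
      _ = _ := by ring
  calc Real.sqrt ((σ * t : ℕ) : ℝ) + (1 + Real.log ((σ * t : ℕ) : ℝ)) ^ (3 / 2 : ℝ) *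
        Real.sqrt (Real.log (1 + ((min (m * (2 * σ)) (2 ^ l * n) : ℕ) : ℝ))) ≤
        ((σ:ℝ) ^ 2 * (4 * σ + 2)) * (((l:ℝ) + 1) * Real.sqrt t) +
        ((σ:ℝ) ^ 2 * (1 + Real.log t) ^ (3 / 2 : ℝ)) * (((4 * σ + 2) * ((l:ℝ) + 1)) *
        Real.sqrt (Real.log (1 + ((min m n : ℕ) : ℝ)))) :=
        add_le_add (h1.trans h19) h18
    _ = _ := by ring

theorem exch_mono {n s s' : ℕ} {F : Set (Finset (Fin n))} (h : s ≤ s') (hF : Exchangeable s F) :
    Exchangeable s' F := by
  intro A hA B hB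
  obtain ⟨c, h1, h2⟩ := hF A hA B hB
  exact ⟨c, fun i => (h1 i).trans h, h2⟩

theorem unconditional (s : ℕ) : ∃ C : ℝ, ∀ (n m t : ℕ) (S : Fin m → Finset (Fin n))
    (F : Set (Finset (Fin n))), 1 ≤ t → DegreeLE S t → Exchangeable s F →
    (∀ x₀ ∈ convexHull ℝ (ind '' F), HasRounding S F x₀ (C * G t (min m n))) ∧
    HasBalancing S F (C * G t (min m n)) := by
  obtain ⟨C, hC0, hC⟩ := uncond
  set σ : ℕ := s + 1 with hσ
  set D : ℝ := (σ:ℝ) ^ 2 * (4 * σ + 2) with hD
  have hD0 : 0 ≤ D := by positivity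
  refine ⟨2 * (2 * σ * (C * D)), fun n m t S F ht hS hF => ?_⟩
  have hF' : Exchangeable σ F := exch_mono (by omega) hF
  have hG := G_nonneg t (min m n) ht
  have hblock : ∀ k : ℕ, BlockBound σ (fun x k => if x ∈ S k then (1:ℝ) else 0) (2 ^ k)
      (2 * σ * (C * (D * (((k:ℝ) + 1) * G t (min m n))))) := by
    intro k
    rcases Nat.eq_zero_or_pos (min m n) with h0 | h0
    · rcases (Nat.min_eq_zero_iff.1 h0) with rfl | rfl
      · intro K a _ _
        exact ⟨fun _ => 1, fun _ => Or.inl rfl, fun k => k.elim0⟩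
      · intro K a _ _
        refine ⟨fun _ => 1, fun _ => Or.inl rfl, fun j => ?_⟩
        have h1 : ∑ p : Fin (2 ^ k) × Fin 0, (1:ℝ) * ∑ x ∈ K p, a p x *
            (if x ∈ S j then (1:ℝ) else 0) = 0 := by
          apply Finset.sum_eq_zero
          intro p _
          exact p.2.elim0
        rw [h1, abs_zero]
        positivity
    · refine bf_block S hS _ (fun T hT => ?_)
      obtain ⟨χ, hχ, hχ2⟩ := hC _ _ (σ * t) T (Nat.mul_pos (by omega) ht) hT
      refine ⟨χ, hχ, fun j => (hχ2 j).trans ?_⟩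
      exact mul_le_mul_of_nonneg_left (G_growth σ t m n k (by omega) ht h0) hC0
  refine general hF' S _ hblock _ (fun _ p => ?_)
  have h1 : ∑ l ∈ Finset.range p, 2 * (σ:ℝ) * (C * (D * (((l:ℝ) + 1) * G t (min m n)))) /
      2 ^ (l + 1) = (2 * σ * (C * D) * G t (min m n)) *
        ∑ l ∈ Finset.range p, ((l:ℝ) + 1) / 2 ^ (l + 1) := by
    rw [Finset.mul_sum]
    refine Finset.sum_congr rfl fun l _ => ?_
    ring
  rw [h1, geom2]
  have h2 : (2:ℝ) - ((p:ℝ) + 2) / 2 ^ p ≤ 2 := by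
    have : (0:ℝ) ≤ ((p:ℝ) + 2) / 2 ^ p := by positivity
    linarith
  have h3 : 0 ≤ 2 * σ * (C * D) * G t (min m n) := by positivity
  calc 2 * σ * (C * D) * G t (min m n) * (2 - ((p:ℝ) + 2) / 2 ^ p) ≤
        2 * σ * (C * D) * G t (min m n) * 2 := mul_le_mul_of_nonneg_left h2 h3
    _ = 2 * (2 * σ * (C * D)) * G t (min m n) := by ring

theorem rounding_mono {m n : ℕ} {S : Fin m → Finset (Fin n)} {F : Set (Finset (Fin n))}
    {x₀ : Fin n → ℝ} {R R' : ℝ} (h : R ≤ R') (hr : HasRounding S F x₀ R) :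
    HasRounding S F x₀ R' := by
  obtain ⟨A, hA, hA2⟩ := hr
  exact ⟨A, hA, fun j => (hA2 j).trans h⟩

theorem balancing_mono {m n : ℕ} {S : Fin m → Finset (Fin n)} {F : Set (Finset (Fin n))}
    {R R' : ℝ} (h : R ≤ R') (hr : HasBalancing S F R) : HasBalancing S F R' := by
  intro p A hA
  obtain ⟨C, h1, h2, h3⟩ := hr p A hA
  exact ⟨C, h1, h2, fun i j => (h3 i j).trans h⟩

/-- if there are not too many elements or sets, this is of the order `√t` -/
theorem G_small (t M : ℕ) (ht : 1 ≤ t)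
    (hM : Real.log (1 + (M : ℕ)) ≤ t / (1 + Real.log t) ^ 3) : G t M ≤ 2 * Real.sqrt t := by
  have h1 : (1:ℝ) ≤ t := by exact_mod_cast ht
  have h2 : 0 ≤ Real.log (t:ℝ) := Real.log_nonneg h1
  have h3 : (0:ℝ) < 1 + Real.log t := by linarith
  have h4 : Real.sqrt (Real.log (1 + (M : ℕ))) ≤ Real.sqrt t / (1 + Real.log t) ^ (3 / 2 : ℝ) := by
    have h5 : Real.sqrt (t / (1 + Real.log t) ^ 3) =
        Real.sqrt t / (1 + Real.log t) ^ (3 / 2 : ℝ) := by
      rw [Real.sqrt_div (by linarith)]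
      congr 1
      rw [Real.sqrt_eq_rpow, ← Real.rpow_natCast, ← Real.rpow_mul h3.le]
      norm_num
    rw [← h5]
    exact Real.sqrt_le_sqrt hM
  unfold G
  have h6 : 0 < (1 + Real.log (t:ℝ)) ^ (3 / 2 : ℝ) := by positivity
  have h7 : (1 + Real.log (t:ℝ)) ^ (3 / 2 : ℝ) * Real.sqrt (Real.log (1 + (M : ℕ))) ≤
      Real.sqrt t := by
    calc (1 + Real.log (t:ℝ)) ^ (3 / 2 : ℝ) * Real.sqrt (Real.log (1 + (M : ℕ))) ≤
          (1 + Real.log (t:ℝ)) ^ (3 / 2 : ℝ) * (Real.sqrt t / (1 + Real.log t) ^ (3 / 2 : ℝ)) :=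
          mul_le_mul_of_nonneg_left h4 h6.le
      _ = Real.sqrt t := by field_simp
  linarith

theorem matroid_version :
    (∃ C : ℝ, 0 < C ∧ ∀ (n m t : ℕ) (S : Fin m → Finset (Fin n)), DegreeLE S t →
      DiscLE S (C * Real.sqrt t)) ↔
    ∃ C : ℝ, 0 < C ∧ ∀ (n m t : ℕ) (S : Fin m → Finset (Fin n)) (M : Matroid (Fin n)),
      DegreeLE S t → StronglyBaseOrderable M → ∀ x₀ ∈ convexHull ℝ (ind '' bases M),
        HasRounding S (bases M) x₀ (C * Real.sqrt t) := by
  classical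
  constructor
  · rintro ⟨c, hc, h⟩
    refine ⟨8 * c, by positivity, fun n m t S M hS hM x₀ hx => ?_⟩
    have h1 := (conditional (sbo_exchangeable M hM) S hS (c * Real.sqrt ((2 * t : ℕ) : ℝ))
      (fun m' n' T hT => h n' m' (2 * t) T hT)).1 x₀ hx
    refine rounding_mono ?_ h1
    have h2 : Real.sqrt ((2 * t : ℕ) : ℝ) ≤ 2 * Real.sqrt t := by
      push_cast
      rw [Real.sqrt_mul (by norm_num)]
      apply mul_le_mul_of_nonneg_right _ (Real.sqrt_nonneg _)
      rw [Real.sqrt_le_left (by norm_num)]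
      norm_num
    push_cast at h2 ⊢
    nlinarith
  · rintro ⟨c, hc, h⟩
    refine ⟨2 * c, by positivity, fun n m t S hS => ?_⟩
    have hS2 : DegreeLE (fun j => (S j).map (Fin.castAddEmb n)) t := by
      intro i
      refine Fin.addCases (fun i => ?_) (fun i => ?_) i
      · refine le_trans (le_of_eq ?_) (hS i)
        congr 1
        ext j
        simp
      · refine le_trans (le_of_eq ?_) (Nat.zero_le t)
        rw [Finset.card_eq_zero]
        apply Finset.filter_eq_empty_iff.2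
        intro j _ hj
        rw [Finset.mem_map] at hj
        obtain ⟨a, _, ha⟩ := hj
        have := congrArg Fin.val ha
        simp at this
        omega
    have hA1 : (Finset.univ.map (Fin.castAddEmb n) : Finset (Fin (n + n))) ∈ bases (unif n) := by
      show (unif n).IsBase _
      rw [unif_isBase, Set.ncard_coe_finset, Finset.card_map, Finset.card_univ, Fintype.card_fin]
    have hA2 : (Finset.univ.map (Fin.natAddEmb n) : Finset (Fin (n + n))) ∈ bases (unif n) := by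
      show (unif n).IsBase _
      rw [unif_isBase, Set.ncard_coe_finset, Finset.card_map, Finset.card_univ, Fintype.card_fin]
    have hx : (fun _ : Fin (n + n) => (1 / 2 : ℝ)) ∈ convexHull ℝ (ind '' bases (unif n)) := by
      have h1 := convex_convexHull ℝ (ind '' bases (unif n))
        (subset_convexHull ℝ _ ⟨_, hA1, rfl⟩) (subset_convexHull ℝ _ ⟨_, hA2, rfl⟩)
        (show (0:ℝ) ≤ 1 / 2 by norm_num) (show (0:ℝ) ≤ 1 / 2 by norm_num) (by norm_num)
      convert h1 using 1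
      ext i
      refine Fin.addCases (fun i => ?_) (fun i => ?_) i
      · simp [ind]
        intro a h
        have := congrArg Fin.val h
        simp at this
        omega
      · simp [ind]
        intro a h
        have := congrArg Fin.val h
        simp at this
        omega
    obtain ⟨A, hA, hAk⟩ := h (n + n) m t _ (unif n) hS2 (unif_sbo n) _ hx
    refine ⟨fun i => if Fin.castAdd n i ∈ A then 1 else -1, fun i => ?_, fun k => ?_⟩
    · show (if Fin.castAdd n i ∈ A then (1:ℤ) else -1) = 1 ∨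
        (if Fin.castAdd n i ∈ A then (1:ℤ) else -1) = -1
      split_ifs
      · exact Or.inl rfl
      · exact Or.inr rfl
    · have h1 := hAk k
      have h2 : ((A ∩ (S k).map (Fin.castAddEmb n)).card : ℝ) =
          ∑ i ∈ S k, if Fin.castAdd n i ∈ A then (1:ℝ) else 0 := by
        rw [Finset.inter_comm, ← Finset.filter_mem_eq_inter, ← Finset.sum_boole, Finset.sum_map]
        rfl
      have h3 : ∑ i ∈ (S k).map (Fin.castAddEmb n), (1 / 2 : ℝ) = ∑ i ∈ S k, (1 / 2 : ℝ) := by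
        rw [Finset.sum_map]
      have h4 : ∑ i ∈ S k, (((if Fin.castAdd n i ∈ A then (1:ℤ) else -1) : ℤ) : ℝ) =
          2 * (((A ∩ (S k).map (Fin.castAddEmb n)).card : ℝ) -
            ∑ i ∈ (S k).map (Fin.castAddEmb n), (1 / 2 : ℝ)) := by
        rw [h2, h3, ← Finset.sum_sub_distrib, Finset.mul_sum]
        refine Finset.sum_congr rfl fun i _ => ?_
        split_ifs <;> norm_num
      show |∑ i ∈ S k, (((if Fin.castAdd n i ∈ A then (1:ℤ) else -1) : ℤ) : ℝ)| ≤ _
      rw [h4, abs_mul, abs_two]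
      linarith

/-- **The Beck–Fiala problem with matroid constraints**: see the header of the file. -/
theorem result :
    (∀ (n m s t : ℕ) (R : ℝ), (∀ (m' n' : ℕ) (T : Fin m' → Finset (Fin n')),
        DegreeLE T (s * t) → DiscLE T R) →
      ∀ (S : Fin m → Finset (Fin n)) (F : Set (Finset (Fin n))), DegreeLE S t →
        Exchangeable s F →
        (∀ x₀ ∈ convexHull ℝ (ind '' F), HasRounding S F x₀ (2 * s * R)) ∧
        HasBalancing S F (2 * s * R)) ∧
    (∀ s : ℕ, ∃ C : ℝ, ∀ (n m t : ℕ) (S : Fin m → Finset (Fin n)) (F : Set (Finset (Fin n))),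
      1 ≤ t → DegreeLE S t → Exchangeable s F →
        ((∀ x₀ ∈ convexHull ℝ (ind '' F), HasRounding S F x₀
            (C * (Real.sqrt t + (1 + Real.log t) ^ (3 / 2 : ℝ) *
              Real.sqrt (Real.log (1 + (min m n : ℕ)))))) ∧
          HasBalancing S F (C * (Real.sqrt t + (1 + Real.log t) ^ (3 / 2 : ℝ) *
            Real.sqrt (Real.log (1 + (min m n : ℕ)))))) ∧
        (Real.log (1 + (min m n : ℕ)) ≤ t / (1 + Real.log t) ^ 3 →
          (∀ x₀ ∈ convexHull ℝ (ind '' F), HasRounding S F x₀ (C * Real.sqrt t)) ∧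
          HasBalancing S F (C * Real.sqrt t))) ∧
    (∀ (n : ℕ) (M : Matroid (Fin n)), StronglyBaseOrderable M → Exchangeable 2 (bases M)) ∧
    ((∃ C : ℝ, 0 < C ∧ ∀ (n m t : ℕ) (S : Fin m → Finset (Fin n)), DegreeLE S t →
        DiscLE S (C * Real.sqrt t)) ↔
      ∃ C : ℝ, 0 < C ∧ ∀ (n m t : ℕ) (S : Fin m → Finset (Fin n)) (M : Matroid (Fin n)),
        DegreeLE S t → StronglyBaseOrderable M → ∀ x₀ ∈ convexHull ℝ (ind '' bases M),
          HasRounding S (bases M) x₀ (C * Real.sqrt t)) := by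
  refine ⟨fun _ _ _ _ R hR S _ hS hF => conditional hF S hS R hR, fun s => ?_,
    fun _ M hM => sbo_exchangeable M hM, matroid_version⟩
  obtain ⟨C, hC⟩ := unconditional s
  refine ⟨2 * |C|, fun n m t S F ht hS hF => ?_⟩
  have h := hC n m t S F ht hS hF
  have hG := G_nonneg t (min m n) ht
  have h1 : C * G t (min m n) ≤ 2 * |C| * G t (min m n) := by
    have := le_abs_self C
    have h0 := abs_nonneg C
    nlinarith
  refine ⟨⟨fun x₀ hx => rounding_mono h1 (h.1 x₀ hx), balancing_mono h1 h.2⟩, fun hM => ?_⟩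
  have h2 : C * G t (min m n) ≤ 2 * |C| * Real.sqrt t := by
    have h3 := G_small t (min m n) ht hM
    have h4 := le_abs_self C
    have h5 := abs_nonneg C
    calc C * G t (min m n) ≤ |C| * G t (min m n) := mul_le_mul_of_nonneg_right h4 hG
      _ ≤ |C| * (2 * Real.sqrt t) := mul_le_mul_of_nonneg_left h3 h5
      _ = 2 * |C| * Real.sqrt t := by ring
  exact ⟨fun x₀ hx => rounding_mono h2 (h.1 x₀ hx), balancing_mono h2 h.2⟩

end Pool.Agent.Results.MP_e8ee11_co.StronglyOrderableBases
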